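import Pool.Agent.KS6_99.IS.Main

/-!
PEPS approximation of all gapped families of ferromagnetic quantum Ising models on the torus.

Every site of the `L × L` torus carries `n` spins one half, so the local dimension is `d = 2 ^ n`
(with `n` arbitrary this covers every periodic lattice, in particular several spins per cell).
`ising e J g b` is the interaction on the `R × R` box

  `- ∑ v, ∑ w, J v w * Z v * Z w - ∑ v, b v * Z v - ∑ v, g v * X v`

where `v` and `w` run over the spins of the box, `Z v` is the diagonal Pauli operator and `X v` the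
spin flip. The couplings `J`, the transverse fields `g` and the longitudinal fields `b` are arbitrary
nonnegative numbers, of any size.

The result: if the family of Hamiltonians on the tori is gapped with a unique ground state, then the
conclusion of the open problem holds, for every `c`, with bond dimension `exp (C (log L)^5)`. There is
no spectral hypothesis and no smallness condition, so that the whole gapped region of the phase
diagram is covered. Moreover the gap is nondecreasing in the longitudinal fields: for all larger
fields the family is gapped too, with the same bound on the gap, and the conclusion holds.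
-/

set_option autoImplicit false

open scoped BigOperators Matrix
open Finset Pool.Agent.TH235.PP
  Pool.Agent.Results.MP_953b23_mp.OverlapBoosting

namespace Pool.Agent.Results.MP_953b23_mp.FerromagneticIsing

/-- The value of a spin: `1` in the state `0` and `-1` in the state `1`. -/
def spin (a : Fin 2) : ℝ := if a = 0 then 1 else -1

/-- The configuration `s` of the spins with the spin `v` flipped. -/
def flip {X : Type*} [DecidableEq X] (v : X) (s : X → Fin 2) : X → Fin 2 :=
  Function.update s v (1 - s v)

/-- The spins of the `R × R` box: the spin `(x, i)` is the `i`-th spin of the site `x`. -/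
abbrev Spins (R n : ℕ) : Type := (Fin R × Fin R) × Fin n

/-- The configuration of the spins of the box in the basis state `P`; the bijection `e` identifies
the basis of a site with the configurations of its `n` spins. -/
def spins {d n R : ℕ} (e : Fin d ≃ (Fin n → Fin 2)) (P : Fin R × Fin R → Fin d) : Spins R n → Fin 2 :=
  fun v => e (P v.1) v.2

/-- The ferromagnetic Ising interaction on the box: its matrix element between the basis states `P`
and `Q` is minus the sum of `∑ v, ∑ w, J v w * spin v * spin w + ∑ v, b v * spin v` (if `P = Q`) and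
of `g v` for every spin `v` such that `Q` is `P` with the spin `v` flipped. -/
noncomputable def ising {d n R : ℕ} (e : Fin d ≃ (Fin n → Fin 2)) (J : Spins R n → Spins R n → ℝ)
    (g b : Spins R n → ℝ) : BoxOp d R := fun P Q =>
  -(((if P = Q then
        ∑ v, ∑ w, J v w * (spin (spins e P v) * spin (spins e P w)) + ∑ v, b v * spin (spins e P v)
      else 0) +
      ∑ v, g v * (if spins e Q = flip v (spins e P) then 1 else 0) : ℝ) : ℂ)

theorem sg_spin (a : Fin 2) : ((KS6_99.IS.sg a : ℤ) : ℝ) = spin a := by
  unfold KS6_99.IS.sg spin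
  split_ifs <;> simp

theorem ising_eq {d n R : ℕ} (e : Fin d ≃ (Fin n → Fin 2)) (J : Spins R n → Spins R n → ℝ)
    (g b : Spins R n → ℝ) : ising e J g b = KS6_99.IS.boxH e J g b := by
  ext P Q
  unfold ising KS6_99.IS.boxH KS6_99.IS.HH KS6_99.IS.Dg
  have h1 : ((fun v : Spins R n => e (P v.1) v.2) = fun v : Spins R n => e (Q v.1) v.2) ↔ P = Q := by
    constructor
    · intro h
      funext x
      apply e.injective
      funext i
      exact congrFun h (x, i)
    · rintro rfl
      rfl
  have h2 : (∑ v, ∑ w, J v w * (spin (spins e P v) * spin (spins e P w)) +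
      ∑ v, b v * spin (spins e P v)) =
      ∑ v : Spins R n, ∑ w : Spins R n, J v w * ((KS6_99.IS.sg (e (P v.1) v.2) *
        KS6_99.IS.sg (e (P w.1) w.2) : ℤ) : ℝ) +
      ∑ v : Spins R n, b v * ((KS6_99.IS.sg (e (P v.1) v.2) : ℤ) : ℝ) := by
    congr 1
    · refine Finset.sum_congr rfl fun v _ => Finset.sum_congr rfl fun w _ => ?_
      rw [Int.cast_mul, sg_spin, sg_spin]
      rfl
    · refine Finset.sum_congr rfl fun v _ => ?_
      rw [sg_spin]
      rfl
  rw [h2]
  by_cases h : P = Q
  · rw [if_pos h, if_pos (h1.2 h)]
    rfl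
  · rw [if_neg h, if_neg (fun h3 => h (h1.1 h3))]
    rfl

/-- **Theorem.** Let `J`, `g`, `b` be nonnegative and let the family of the Hamiltonians
`ham (ising e J g b) L` be gapped with the unique ground states `Ψ L`. Then for all longitudinal
fields `b' ≥ b` (among them `b' = b`) the family is gapped, with the same bound `Δ` on the gap, and
for every `c > 0` its ground states `Ψ' L` are approximated, for all large `L`, within `L ^ (-c)` by
PEPS of bond dimension at most `exp (C (log L)^5)`. For `b' = b` one has `Ψ' = Ψ`. -/
theorem result {d n R : ℕ} (e : Fin d ≃ (Fin n → Fin 2)) (J : Spins R n → Spins R n → ℝ)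
    (g b : Spins R n → ℝ) (hJ : ∀ v w, 0 ≤ J v w) (hg : ∀ v, 0 ≤ g v) (hb : ∀ v, 0 ≤ b v) (Δ : ℝ)
    (Ψ : ∀ L : ℕ, (Site L → Fin d) → ℂ) (hF : GappedFamily (ising e J g b) Δ Ψ)
    (b' : Spins R n → ℝ) (hbb : ∀ v, b v ≤ b' v) :
    ∃ Ψ' : ∀ L : ℕ, (Site L → Fin d) → ℂ, GappedFamily (ising e J g b') Δ Ψ' ∧
      (b' = b → Ψ' = Ψ) ∧ ∀ c : ℝ, 0 < c → ∃ C : ℝ, Approx Ψ' 5 C fun L => (L : ℝ) ^ (-c) := by
  obtain ⟨Ψ', hF', hΨ⟩ : ∃ Ψ' : ∀ L : ℕ, (Site L → Fin d) → ℂ,
      GappedFamily (ising e J g b') Δ Ψ' ∧ (b' = b → Ψ' = Ψ) := by
    by_cases h : b' = b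
    · exact ⟨Ψ, by rw [h]; exact hF, fun _ => rfl⟩
    · rw [ising_eq] at hF
      obtain ⟨Ψ', hF'⟩ := KS6_99.IS.family_mono e J g b b' hJ hg hb hbb Δ Ψ hF
      exact ⟨Ψ', by rw [ising_eq]; exact hF', fun h' => absurd h' h⟩
  refine ⟨Ψ', hF', hΨ, fun c hc => ?_⟩
  rw [ising_eq] at hF'
  exact KS6_99.IS.main e J g b' hJ hg (fun v => (hb v).trans (hbb v)) Δ Ψ' hF' c hc

end Pool.Agent.Results.MP_953b23_mp.FerromagneticIsing
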