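import Pool.Agent.KS6_99.LY.Fin

/-!
PEPS approximation with polynomial bond dimension for all quantum ferromagnets of Lee-Yang type in a
nonzero longitudinal field on the torus.

Every site of the `L × L` torus carries `n` spins one half, so the local dimension is `d = 2 ^ n`
(with `n` arbitrary this covers every periodic lattice, in particular several spins per cell).
`leeYang e J a c g b` is the interaction on the `R × R` box

  `- ∑ (v ≠ w), (J v w * Z v * Z w + a v w |00⟩⟨11| + conj (a v w) |11⟩⟨00|
      + c v w |01⟩⟨10| + conj (c v w) |10⟩⟨01|) - ∑ v, (b v * Z v + g v |0⟩⟨1| + conj (g v) |1⟩⟨0|)`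

where `v` and `w` run over the spins of the box, the sum over `v ≠ w` is over ordered pairs, and `Z v`
is the diagonal Pauli operator. The complex amplitudes `a v w`, `c v w` amount to an arbitrary real
`2 × 2` matrix `T` of couplings of the transverse components (X and Y) of the two spins:
`a = T_xx - T_yy - i (T_xy + T_yx)` and `c = T_xx + T_yy + i (T_xy - T_yx)`, and `|a| + |c|` is twice
the operator norm of `T`. The condition `|a v w| + |c v w| ≤ 2 * J v w` thus says that the longitudinal
ferromagnetic coupling is at least the norm of the transverse one (the condition of Suzuki and Fisher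
`J_z ≥ |J_x|, |J_y|` if `T` is diagonal). The transverse fields `g` are arbitrary complex numbers, so
that most of these Hamiltonians have a sign problem.

The result: if the total longitudinal field at every spin of the torus is at least `b₀ > 0` then the
family of the Hamiltonians on the tori is gapped with a unique ground state, the gap being at least
`2 * b₀`, whatever the couplings are; and the ground states are approximated, within an arbitrary
inverse power of `L`, by PEPS of polynomial bond dimension `L ^ C`. There is no spectral hypothesis,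
no hypothesis on the gap and no smallness condition.
-/

set_option autoImplicit false

open scoped BigOperators Matrix
open Finset Pool.Agent.TH235.PP
  Pool.Agent.Results.MP_953b23_mp.OverlapBoosting

namespace Pool.Agent.Results.MP_953b23_mp.LeeYangFerromagnets

/-- The value of a spin: `1` in the state `0` and `-1` in the state `1`. -/
def spin (i : Fin 2) : ℝ := if i = 0 then 1 else -1

/-- The configuration `s` of the spins with the spin `v` flipped. -/
def flip {X : Type*} [DecidableEq X] (v : X) (s : X → Fin 2) : X → Fin 2 :=
  Function.update s v (1 - s v)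

/-- The spins of the `R × R` box: the spin `(x, i)` is the `i`-th spin of the site `x`. -/
abbrev Spins (R n : ℕ) : Type := (Fin R × Fin R) × Fin n

/-- The configuration of the spins of the box in the basis state `P`; the bijection `e` identifies
the basis of a site with the configurations of its `n` spins. -/
def spins {d n R : ℕ} (e : Fin d ≃ (Fin n → Fin 2)) (P : Fin R × Fin R → Fin d) : Spins R n → Fin 2 :=
  fun v => e (P v.1) v.2

/-- The matrix elements of `a |00⟩⟨11| + conj a |11⟩⟨00| + c |01⟩⟨10| + conj c |10⟩⟨01|` between the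
state `(i, j)` of two spins and the state in which both spins are flipped. -/
noncomputable def transverse (a c : ℂ) (i j : Fin 2) : ℂ :=
  if i = j then (if i = 0 then a else (starRingEnd ℂ) a)
  else (if i = 0 then c else (starRingEnd ℂ) c)

/-- The matrix elements of the coupling of the spins `v` and `w`. -/
noncomputable def pair {X : Type*} [Fintype X] [DecidableEq X] (J : ℝ) (a c : ℂ) (v w : X)
    (s t : X → Fin 2) : ℂ :=
  (if t = s then ((J * (spin (s v) * spin (s w)) : ℝ) : ℂ) else 0) +
    if t = flip v (flip w s) then transverse a c (s v) (s w) else 0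

/-- The matrix elements of the fields `b Z + g |0⟩⟨1| + conj g |1⟩⟨0|` at the spin `v`. -/
noncomputable def field {X : Type*} [Fintype X] [DecidableEq X] (b : ℝ) (g : ℂ) (v : X)
    (s t : X → Fin 2) : ℂ :=
  (if t = s then ((b * spin (s v) : ℝ) : ℂ) else 0) +
    if t = flip v s then (if s v = 0 then g else (starRingEnd ℂ) g) else 0

/-- The interaction on the box: minus the sum of the couplings over the ordered pairs of distinct
spins and of the fields over the spins; the matrix element between the basis states `P` and `Q`. -/
noncomputable def leeYang {d n R : ℕ} (e : Fin d ≃ (Fin n → Fin 2)) (J : Spins R n → Spins R n → ℝ)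
    (a c : Spins R n → Spins R n → ℂ) (g : Spins R n → ℂ) (b : Spins R n → ℝ) : BoxOp d R :=
  fun P Q =>
    -((∑ v, ∑ w, if v = w then 0 else
        pair (J v w) (a v w) (c v w) v w (spins e P) (spins e Q)) +
      ∑ v, field (b v) (g v) v (spins e P) (spins e Q))

theorem spin_eq (i : Fin 2) : spin i = KS6_99.LY.sg i := rfl

theorem leeYang_eq {d n R : ℕ} (e : Fin d ≃ (Fin n → Fin 2)) (J : Spins R n → Spins R n → ℝ)
    (a c : Spins R n → Spins R n → ℂ) (g : Spins R n → ℂ) (b : Spins R n → ℝ) :
    leeYang e J a c g b = KS6_99.LY.toBox e (KS6_99.LY.HM J a c g b) := by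
  ext P Q
  unfold leeYang KS6_99.LY.toBox KS6_99.LY.HM
  change _ = (-((∑ v, ∑ w, if v = w then 0 else
    KS6_99.LY.PG v w (J v w) (a v w) (c v w)) + ∑ v, KS6_99.LY.SG v (g v) + KS6_99.LY.DG b) :
    Matrix (Spins R n → Fin 2) (Spins R n → Fin 2) ℂ) (spins e P) (spins e Q)
  rw [Matrix.neg_apply, Matrix.add_apply, Matrix.add_apply, Matrix.sum_apply, Matrix.sum_apply]
  generalize spins e P = s
  generalize spins e Q = t
  have h1 : ∑ v, ∑ w, (if v = w then 0 else pair (J v w) (a v w) (c v w) v w s t) =
      ∑ v, (∑ w, if v = w then 0 else KS6_99.LY.PG v w (J v w) (a v w) (c v w) :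
        Matrix (Spins R n → Fin 2) (Spins R n → Fin 2) ℂ) s t := by
    refine Finset.sum_congr rfl fun v _ => ?_
    rw [Matrix.sum_apply]
    refine Finset.sum_congr rfl fun w _ => ?_
    by_cases hvw : v = w
    · rw [if_pos hvw, if_pos hvw, Matrix.zero_apply]
    · rw [if_neg hvw, if_neg hvw]
      unfold pair KS6_99.LY.PG
      congr 1
      by_cases h : s = t
      · rw [if_pos h, if_pos h.symm]
        rfl
      · rw [if_neg h, if_neg (Ne.symm h)]
  have h2 : ∑ v, field (b v) (g v) v s t =
      ∑ v, (KS6_99.LY.SG v (g v) : Matrix (Spins R n → Fin 2) (Spins R n → Fin 2) ℂ) s t +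
        KS6_99.LY.DG b s t := by
    unfold field
    rw [Finset.sum_add_distrib, add_comm]
    congr 1
    unfold KS6_99.LY.DG
    by_cases h : t = s
    · subst h
      rw [Matrix.diagonal_apply_eq]
      push_cast
      refine Finset.sum_congr rfl fun v _ => ?_
      rw [if_pos rfl]
      rfl
    · rw [Matrix.diagonal_apply_ne _ (Ne.symm h)]
      refine Finset.sum_eq_zero fun v _ => ?_
      rw [if_neg h]
  rw [h1, h2, add_assoc]

/-- **Theorem.** Let `|a v w| + |c v w| ≤ 2 * J v w` for all spins `v ≠ w` of the box, let `g` be
arbitrary and let the total longitudinal field `∑ y, b (y, i)` at the `i`-th spin of every site of the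
torus be at least `b₀ > 0`. Then the family of the Hamiltonians `ham (leeYang e J a c g b) L` is
gapped with a unique ground state, the gap being at least `2 * b₀`. Moreover, for all choices `Ψ L` of
the unit ground vectors and every `κ > 0` the vectors `Ψ L` are approximated, for all large `L`,
within `L ^ (-κ)` by PEPS of bond dimension at most `exp (C * log L) = L ^ C`. -/
theorem result {d n R : ℕ} (hR : 0 < R) (e : Fin d ≃ (Fin n → Fin 2))
    (J : Spins R n → Spins R n → ℝ) (a c : Spins R n → Spins R n → ℂ)
    (hJ : ∀ v w, v ≠ w → ‖a v w‖ + ‖c v w‖ ≤ 2 * J v w) (g : Spins R n → ℂ)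
    (b : Spins R n → ℝ) (b₀ : ℝ) (hb₀ : 0 < b₀)
    (hb : ∀ i : Fin n, b₀ ≤ ∑ y : Fin R × Fin R, b (y, i)) :
    (∃ Ψ : ∀ L : ℕ, (Site L → Fin d) → ℂ, GappedFamily (leeYang e J a c g b) (2 * b₀) Ψ) ∧
      ∀ (Δ : ℝ) (Ψ : ∀ L : ℕ, (Site L → Fin d) → ℂ), GappedFamily (leeYang e J a c g b) Δ Ψ →
        ∀ κ : ℝ, 0 < κ → ∃ C : ℝ, Approx Ψ 1 C fun L => (L : ℝ) ^ (-κ) := by
  rw [leeYang_eq]
  exact KS6_99.LY.main hR e J a c g b hJ b₀ hb₀ hb

end Pool.Agent.Results.MP_953b23_mp.LeeYangFerromagnets
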